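import Mathlib

/-!
Components of `G - T`, cut sets, completions (helper file for MP_12e671_al).
-/

set_option linter.unusedSectionVars false

namespace Pool.Agent.Helper46.Access

open Finset Classical

variable {V : Type*}

/-- The finite set `K` is connected in `G`. -/
def CC (G : SimpleGraph V) (K : Finset V) : Prop :=
  ∀ u ∈ K, ∀ v ∈ K, Relation.ReflTransGen (fun a b => G.Adj a b ∧ b ∈ K) u v

/-- `K` is a connected component of `G - T`. -/
structure IsComp (G : SimpleGraph V) (T K : Finset V) : Prop where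
  ne : K.Nonempty
  disj : ∀ u ∈ K, u ∉ T
  conn : CC G K
  closed : ∀ u ∈ K, ∀ v, G.Adj u v → v ∈ K ∨ v ∈ T

lemma IsComp.subset_of_cc {G : SimpleGraph V} {T K A : Finset V} (h : IsComp G T K)
    (hA : CC G A) (hAT : ∀ a ∈ A, a ∉ T) {u : V} (hu : u ∈ A) (huK : u ∈ K) : A ⊆ K := by
  intro v hv
  have hr := hA u hu v hv
  clear hv
  induction hr with
  | refl => exact huK
  | tail hab hbc ih =>
    rcases h.closed _ ih _ hbc.1 with h1 | h1
    · exact h1
    · exact absurd h1 (hAT _ hbc.2)

lemma IsComp.eq_of_mem {G : SimpleGraph V} {T K K' : Finset V} (h : IsComp G T K)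
    (h' : IsComp G T K') {u : V} (hu : u ∈ K) (hu' : u ∈ K') : K = K' :=
  Finset.Subset.antisymm (h'.subset_of_cc h.conn h.disj hu hu')
    (h.subset_of_cc h'.conn h'.disj hu' hu)

lemma exists_comp [Fintype V] (G : SimpleGraph V) (T : Finset V) {v : V} (hv : v ∉ T) :
    ∃ K, IsComp G T K ∧ v ∈ K := by
  set r : V → V → Prop := fun a b => G.Adj a b ∧ b ∉ T with hr
  set K : Finset V := univ.filter (fun u => Relation.ReflTransGen r v u) with hK
  have memK : ∀ u, u ∈ K ↔ Relation.ReflTransGen r v u := by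
    intro u; simp [hK]
  have hvK : v ∈ K := (memK v).2 Relation.ReflTransGen.refl
  refine ⟨K, ⟨⟨v, hvK⟩, ?_, ?_, ?_⟩, hvK⟩
  · intro u hu
    rw [memK] at hu
    induction hu with
    | refl => exact hv
    | tail _ h _ => exact h.2
  · have h1 : ∀ u ∈ K, Relation.ReflTransGen (fun a b => G.Adj a b ∧ b ∈ K) v u := by
      intro u hu
      have hu' := (memK u).1 hu
      clear hu
      induction hu' with
      | refl => exact Relation.ReflTransGen.refl
      | tail hab hbc ih =>
        exact ih.tail ⟨hbc.1, (memK _).2 (hab.tail hbc)⟩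
    have h2 : ∀ u ∈ K, Relation.ReflTransGen (fun a b => G.Adj a b ∧ b ∈ K) u v := by
      intro u hu
      have hu' := (memK u).1 hu
      clear hu
      induction hu' with
      | refl => exact Relation.ReflTransGen.refl
      | tail hab hbc ih =>
        exact Relation.ReflTransGen.head ⟨hbc.1.symm, (memK _).2 hab⟩ ih
    intro u hu w hw
    exact (h2 u hu).trans (h1 w hw)
  · intro u hu w huw
    by_cases hw : w ∈ T
    · exact Or.inr hw
    · exact Or.inl ((memK w).2 (((memK u).1 hu).tail ⟨huw, hw⟩))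

/-- The set of components of `G - T`. -/
noncomputable def comps [Fintype V] (G : SimpleGraph V) (T : Finset V) : Finset (Finset V) :=
  univ.filter (IsComp G T)

lemma mem_comps [Fintype V] {G : SimpleGraph V} {T K : Finset V} :
    K ∈ comps G T ↔ IsComp G T K := by
  simp [comps]

/-- Every vertex of `T` has neighbours in two different components of `G - T`. -/
def Tight (G : SimpleGraph V) (T : Finset V) : Prop :=
  ∀ t ∈ T, ∃ K₁ K₂, IsComp G T K₁ ∧ IsComp G T K₂ ∧ K₁ ≠ K₂ ∧
    (∃ u ∈ K₁, G.Adj t u) ∧ ∃ u ∈ K₂, G.Adj t u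

variable [Fintype V]

/-- A component of `G - (T \ t)` not containing `t` is a component of `G - T`. -/
lemma IsComp.of_erase {G : SimpleGraph V} {T K : Finset V} {t : V}
    (h : IsComp G (T.erase t) K) (ht : t ∉ K) : IsComp G T K := by
  refine ⟨h.ne, ?_, h.conn, ?_⟩
  · intro u hu huT
    refine h.disj u hu (Finset.mem_erase.2 ⟨?_, huT⟩)
    rintro rfl
    exact ht hu
  · intro u hu v huv
    rcases h.closed u hu v huv with h1 | h1
    · exact Or.inl h1
    · exact Or.inr (Finset.mem_of_mem_erase h1)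

/-- A component of `G - T` not adjacent to `t` is a component of `G - (T \ t)`. -/
lemma IsComp.to_erase {G : SimpleGraph V} {T K : Finset V} {t : V}
    (h : IsComp G T K) (ht : ∀ u ∈ K, ¬ G.Adj u t) : IsComp G (T.erase t) K := by
  refine ⟨h.ne, fun u hu huT => h.disj u hu (Finset.mem_of_mem_erase huT), h.conn, ?_⟩
  intro u hu v huv
  rcases h.closed u hu v huv with h1 | h1
  · exact Or.inl h1
  · refine Or.inr (Finset.mem_erase.2 ⟨?_, h1⟩)
    rintro rfl
    exact ht u hu huv

lemma card_lt_of_two {G : SimpleGraph V} {T : Finset V} {t : V}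
    {K₁ K₂ : Finset V} (h1 : IsComp G T K₁) (h2 : IsComp G T K₂) (hne : K₁ ≠ K₂)
    (ha1 : ∃ u ∈ K₁, G.Adj t u) (ha2 : ∃ u ∈ K₂, G.Adj t u) :
    (comps G (T.erase t)).card < (comps G T).card := by
  obtain ⟨K, hK, htK⟩ := exists_comp G (T.erase t) (v := t) (by simp)
  have hsub : (comps G (T.erase t)).erase K ⊆ ((comps G T).erase K₁).erase K₂ := by
    intro K' hK'
    rw [Finset.mem_erase, mem_comps] at hK'
    obtain ⟨hneK, hK'c⟩ := hK'
    have htK' : t ∉ K' := fun h => hneK (hK'c.eq_of_mem hK h htK)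
    have key : ∀ K₀, (∃ u ∈ K₀, G.Adj t u) → K' ≠ K₀ := by
      rintro K₀ ⟨u, hu, hadj⟩ rfl
      rcases hK'c.closed u hu t hadj.symm with h | h
      · exact htK' h
      · simp at h
    rw [Finset.mem_erase, Finset.mem_erase, mem_comps]
    exact ⟨key _ ha2, key _ ha1, hK'c.of_erase htK'⟩
  have hcard := Finset.card_le_card hsub
  have e1 : ((comps G (T.erase t)).erase K).card = (comps G (T.erase t)).card - 1 :=
    Finset.card_erase_of_mem (mem_comps.2 hK)
  have e2 : ((comps G T).erase K₁).card = (comps G T).card - 1 :=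
    Finset.card_erase_of_mem (mem_comps.2 h1)
  have hK₂ : K₂ ∈ (comps G T).erase K₁ := Finset.mem_erase.2 ⟨hne.symm, mem_comps.2 h2⟩
  have e3 : (((comps G T).erase K₁).erase K₂).card = ((comps G T).erase K₁).card - 1 :=
    Finset.card_erase_of_mem hK₂
  have p1 : 0 < (comps G (T.erase t)).card := Finset.card_pos.2 ⟨K, mem_comps.2 hK⟩
  have p2 : 0 < ((comps G T).erase K₁).card := Finset.card_pos.2 ⟨K₂, hK₂⟩
  omega

lemma card_le_of_not_two {G : SimpleGraph V} {T : Finset V} {t : V} (htT : t ∈ T)
    (h : ¬ ∃ K₁ K₂, IsComp G T K₁ ∧ IsComp G T K₂ ∧ K₁ ≠ K₂ ∧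
      (∃ u ∈ K₁, G.Adj t u) ∧ ∃ u ∈ K₂, G.Adj t u) :
    (comps G T).card ≤ (comps G (T.erase t)).card := by
  obtain ⟨K, hK, htK⟩ := exists_comp G (T.erase t) (v := t) (by simp)
  -- all components of `G - T` but at most one are components of `G - (T \ t)` other than `K`
  by_cases hex : ∃ K₁, IsComp G T K₁ ∧ ∃ u ∈ K₁, G.Adj t u
  · obtain ⟨K₁, hK₁, hadj₁⟩ := hex
    have hsub : (comps G T).erase K₁ ⊆ (comps G (T.erase t)).erase K := by
      intro K' hK'
      rw [Finset.mem_erase, mem_comps] at hK'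
      obtain ⟨hne, hK'c⟩ := hK'
      have hna : ∀ u ∈ K', ¬ G.Adj u t := by
        intro u hu hadj
        exact h ⟨K₁, K', hK₁, hK'c, hne.symm, hadj₁, ⟨u, hu, hadj.symm⟩⟩
      rw [Finset.mem_erase, mem_comps]
      refine ⟨?_, hK'c.to_erase hna⟩
      rintro rfl
      exact hK'c.disj t htK htT
    have hcard := Finset.card_le_card hsub
    rw [Finset.card_erase_of_mem (mem_comps.2 hK₁),
      Finset.card_erase_of_mem (mem_comps.2 hK)] at hcard
    have p1 : 0 < (comps G (T.erase t)).card := Finset.card_pos.2 ⟨K, mem_comps.2 hK⟩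
    omega
  · refine Finset.card_le_card ?_
    intro K' hK'
    rw [mem_comps] at hK' ⊢
    refine hK'.to_erase ?_
    intro u hu hadj
    exact hex ⟨K', hK', u, hu, hadj.symm⟩

/-- `U G k` : `c(T) = |T| + k` for every tight set. -/
def U (G : SimpleGraph V) (k : ℕ) : Prop :=
  ∀ T, Tight G T → (comps G T).card = T.card + k

lemma U.le {G : SimpleGraph V} {k : ℕ} (h : U G k) (T : Finset V) :
    (comps G T).card ≤ T.card + k := by
  induction T using Finset.strongInduction with
  | H T ih =>
    by_cases hT : Tight G T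
    · exact (h T hT).le
    · unfold Tight at hT
      push Not at hT
      obtain ⟨t, ht, hno⟩ := hT
      have h1 : (comps G T).card ≤ (comps G (T.erase t)).card := by
        refine card_le_of_not_two ht ?_
        rintro ⟨K₁, K₂, h1, h2, h3, h4, ⟨u, hu, hadj⟩⟩
        exact hno K₁ K₂ h1 h2 h3 h4 u hu hadj
      have h2 := ih (T.erase t) (Finset.erase_ssubset ht)
      have h3 : (T.erase t).card = T.card - 1 := Finset.card_erase_of_mem ht
      omega

/-! ### Completion at a vertex -/

/-- Complete the neighbourhood of `v`. -/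
def complete (G : SimpleGraph V) (v : V) : SimpleGraph V where
  Adj a b := G.Adj a b ∨ (a ≠ b ∧ G.Adj v a ∧ G.Adj v b)
  symm := ⟨by
    intro a b h
    rcases h with h | ⟨h1, h2, h3⟩
    · exact Or.inl h.symm
    · exact Or.inr ⟨h1.symm, h3, h2⟩⟩
  loopless := ⟨by
    intro a h
    rcases h with h | ⟨h1, _⟩
    · exact G.loopless.irrefl a h
    · exact h1 rfl⟩

lemma le_complete (G : SimpleGraph V) (v : V) : G ≤ complete G v := fun _ _ h => Or.inl h

lemma complete_adj_v {G : SimpleGraph V} {v a : V} : (complete G v).Adj v a ↔ G.Adj v a := by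
  constructor
  · rintro (h | ⟨_, _, h⟩)
    · exact h
    · exact h
  · exact fun h => Or.inl h

lemma isComp_complete {G : SimpleGraph V} {v : V} {T K : Finset V} (hv : v ∉ T) :
    IsComp (complete G v) T K ↔ IsComp G T K := by
  constructor
  · intro h
    refine ⟨h.ne, h.disj, ?_, fun u hu w huw => h.closed u hu w (Or.inl huw)⟩
    intro u hu w hw
    have hr := h.conn u hu w hw
    -- also track membership
    have : ∀ w, Relation.ReflTransGen (fun a b => (complete G v).Adj a b ∧ b ∈ K) u w →
        (w ∈ K ∧ Relation.ReflTransGen (fun a b => G.Adj a b ∧ b ∈ K) u w) := by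
      intro w hr
      induction hr with
      | refl => exact ⟨hu, Relation.ReflTransGen.refl⟩
      | @tail a b hab hbc ih =>
        obtain ⟨haK, hua⟩ := ih
        rcases hbc with ⟨hadj | ⟨hne, hva, hvb⟩, hbK⟩
        · exact ⟨hbK, hua.tail ⟨hadj, hbK⟩⟩
        · have hvK : v ∈ K := by
            rcases h.closed a haK v (Or.inl hva.symm) with h1 | h1
            · exact h1
            · exact absurd h1 hv
          exact ⟨hbK, (hua.tail ⟨hva.symm, hvK⟩).tail ⟨hvb, hbK⟩⟩
    exact (this w hr).2
  · intro h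
    refine ⟨h.ne, h.disj, ?_, ?_⟩
    · intro u hu w hw
      refine Relation.ReflTransGen.mono ?_ u w (h.conn u hu w hw)
      intro a b hab
      exact ⟨Or.inl hab.1, hab.2⟩
    · intro u hu w huw
      rcases huw with huw | ⟨hne, hvu, hvw⟩
      · exact h.closed u hu w huw
      · have hvK : v ∈ K := by
          rcases h.closed u hu v hvu.symm with h1 | h1
          · exact h1
          · exact absurd h1 hv
        exact h.closed v hvK w hvw

lemma comps_complete {G : SimpleGraph V} {v : V} {T : Finset V} (hv : v ∉ T) :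
    comps (complete G v) T = comps G T := by
  ext K
  rw [mem_comps, mem_comps, isComp_complete hv]

/-- A vertex is simplicial if its neighbours are pairwise adjacent. -/
def Simplicial (G : SimpleGraph V) (v : V) : Prop :=
  ∀ a b, G.Adj v a → G.Adj v b → a ≠ b → G.Adj a b

lemma simplicial_complete (G : SimpleGraph V) (v : V) : Simplicial (complete G v) v := by
  intro a b ha hb hab
  exact Or.inr ⟨hab, complete_adj_v.1 ha, complete_adj_v.1 hb⟩

lemma Tight.not_simplicial {G : SimpleGraph V} {T : Finset V} (h : Tight G T) {t : V}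
    (ht : t ∈ T) : ¬ Simplicial G t := by
  intro hs
  obtain ⟨K₁, K₂, h1, h2, hne, ⟨u, hu, hau⟩, ⟨w, hw, haw⟩⟩ := h t ht
  by_cases huw : u = w
  · subst huw
    exact hne (h1.eq_of_mem h2 hu hw)
  · have hadj := hs u w hau haw huw
    rcases h1.closed u hu w hadj with h3 | h3
    · exact hne (h1.eq_of_mem h2 h3 hw)
    · exact h2.disj w hw h3

lemma U.complete {G : SimpleGraph V} {k : ℕ} (h : U G k) (v : V) : U (complete G v) k := by
  intro T hT
  have hv : v ∉ T := fun hv => hT.not_simplicial hv (simplicial_complete G v)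
  rw [comps_complete hv]
  apply h
  intro t ht
  obtain ⟨K₁, K₂, h1, h2, hne, hu, hw⟩ := hT t ht
  rw [isComp_complete hv] at h1 h2
  have key : ∀ K, IsComp G T K → (∃ u ∈ K, (Access.complete G v).Adj t u) → ∃ u ∈ K, G.Adj t u := by
    rintro K hK ⟨u, hu, hadj | ⟨hne, hvt, hvu⟩⟩
    · exact ⟨u, hu, hadj⟩
    · refine ⟨v, ?_, hvt.symm⟩
      rcases hK.closed u hu v hvu.symm with h3 | h3
      · exact h3
      · exact absurd h3 hv
  exact ⟨K₁, K₂, h1, h2, hne, key _ h1 hu, key _ h2 hw⟩

end Pool.Agent.Helper46.Access
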