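import Pool.Agent.Helper46.Access.Basic

/-!
No unmixed graph in which every vertex with clique trace on a fixed induced hexagon is simplicial.
-/

set_option linter.unusedSectionVars false

namespace Pool.Agent.Helper46.Access

open Finset Classical

variable {V : Type*} [Fintype V]

/-- The setting: `c(T) = |T| + k` for tight `T`; `z` is an induced hexagon; every vertex off the
hexagon whose neighbours on the hexagon form a clique is simplicial. -/
structure Good (G : SimpleGraph V) (k : ℕ) (z : Fin 6 → V) : Prop where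
  u : U G k
  inj : Function.Injective z
  hex : ∀ i j, G.Adj (z i) (z j) ↔ (j = i + 1 ∨ i = j + 1)
  simp : ∀ v, (∀ i, v ≠ z i) →
    (∀ i j, G.Adj v (z i) → G.Adj v (z j) → i ≠ j → G.Adj (z i) (z j)) → Simplicial G v

variable {G : SimpleGraph V} {k : ℕ} {z : Fin 6 → V}

lemma Good.comp (h : Good G k z) (φ : Equiv.Perm (Fin 6))
    (hφ : ∀ i j : Fin 6, (φ j = φ i + 1 ∨ φ i = φ j + 1) ↔ (j = i + 1 ∨ i = j + 1)) :
    Good G k (fun i => z (φ i)) where
  u := h.u
  inj := h.inj.comp φ.injective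
  hex := fun i j => (h.hex _ _).trans (hφ i j)
  simp := by
    intro v hv hc
    apply h.simp v
    · intro i
      have := hv (φ.symm i)
      simpa using this
    · intro i j hi hj hij
      have := hc (φ.symm i) (φ.symm j) (by simpa using hi) (by simpa using hj)
        (by simpa using hij)
      simpa using this

lemma Good.adj (h : Good G k z) (i j : Fin 6) (hij : (j = i + 1 ∨ i = j + 1)) :
    G.Adj (z i) (z j) := (h.hex i j).2 hij

lemma Good.nadj (h : Good G k z) (i j : Fin 6) (hij : ¬ (j = i + 1 ∨ i = j + 1)) :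
    ¬ G.Adj (z i) (z j) := fun hh => hij ((h.hex i j).1 hh)

lemma Good.ns (h : Good G k z) (i : Fin 6) : ¬ Simplicial G (z i) := by
  intro hs
  have h1 : G.Adj (z i) (z (i + 1)) := h.adj _ _ (Or.inl rfl)
  have h2 : G.Adj (z i) (z (i - 1)) := by
    exact h.adj _ _ (Or.inr ((by decide : ∀ i : Fin 6, i = i - 1 + 1) i))
  have h3 : z (i + 1) ≠ z (i - 1) := by
    intro he
    exact (by decide : ∀ i : Fin 6, i + 1 ≠ i - 1) i (h.inj he)
  have h4 := hs _ _ h1 h2 h3
  rw [h.hex] at h4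
  exact (by decide : ∀ i : Fin 6, ¬ (i - 1 = i + 1 + 1 ∨ i + 1 = i - 1 + 1)) i h4

lemma Good.nonclique (h : Good G k z) {v : V} (hs : ¬ Simplicial G v) (hv : ∀ i, v ≠ z i) :
    ∃ i j, G.Adj v (z i) ∧ G.Adj v (z j) ∧ i ≠ j ∧ ¬ G.Adj (z i) (z j) := by
  by_contra hno
  apply hs
  apply h.simp v hv
  intro i j hi hj hij
  by_contra hn
  exact hno ⟨i, j, hi, hj, hij, hn⟩

/-! ### The weight -/

noncomputable def smallF (G : SimpleGraph V) (A : Finset V) : Finset (Finset V) :=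
  (comps G A).filter (fun K => ∀ u ∈ K, Simplicial G u)

noncomputable def bigF (G : SimpleGraph V) (A : Finset V) : Finset (Finset V) :=
  (comps G A).filter (fun K => ¬ ∀ u ∈ K, Simplicial G u)

lemma card_small_add_big (A : Finset V) :
    (smallF G A).card + (bigF G A).card = (comps G A).card :=
  Finset.card_filter_add_card_filter_not _

noncomputable def w (G : SimpleGraph V) (k : ℕ) (A : Finset V) : ℤ :=
  (A.card : ℤ) + k - 1 - (smallF G A).card

/-- no simplicial vertex in `A` -/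
def NS (G : SimpleGraph V) (A : Finset V) : Prop := ∀ a ∈ A, ¬ Simplicial G a

lemma mem_smallF {A K : Finset V} :
    K ∈ smallF G A ↔ IsComp G A K ∧ ∀ u ∈ K, Simplicial G u := by
  simp [smallF, mem_comps]

lemma mem_bigF {A K : Finset V} :
    K ∈ bigF G A ↔ IsComp G A K ∧ ∃ u ∈ K, ¬ Simplicial G u := by
  simp [bigF, mem_comps]

lemma w_submod {A B : Finset V} (hA : NS G A) (hB : NS G B) :
    w G k (A ∪ B) + w G k (A ∩ B) ≤ w G k A + w G k B := by
  have h1 : smallF G A ∩ smallF G B ⊆ smallF G (A ∩ B) := by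
    intro K hK
    rw [Finset.mem_inter, mem_smallF, mem_smallF] at hK
    obtain ⟨⟨hKA, hs⟩, hKB, -⟩ := hK
    rw [mem_smallF]
    refine ⟨⟨hKA.ne, ?_, hKA.conn, ?_⟩, hs⟩
    · intro u hu hu'
      exact hKA.disj u hu (Finset.mem_inter.1 hu').1
    · intro u hu v huv
      rcases hKA.closed u hu v huv with h | h
      · exact Or.inl h
      rcases hKB.closed u hu v huv with h' | h'
      · exact Or.inl h'
      exact Or.inr (Finset.mem_inter.2 ⟨h, h'⟩)
  have h2 : smallF G A ∪ smallF G B ⊆ smallF G (A ∪ B) := by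
    intro K hK
    rw [Finset.mem_union, mem_smallF, mem_smallF] at hK
    rw [mem_smallF]
    have hd : (∀ u ∈ K, Simplicial G u) → ∀ u ∈ K, u ∉ A ∪ B := by
      intro hs u hu hu'
      rcases Finset.mem_union.1 hu' with h | h
      · exact hA u h (hs u hu)
      · exact hB u h (hs u hu)
    rcases hK with ⟨hK, hs⟩ | ⟨hK, hs⟩
    · refine ⟨⟨hK.ne, hd hs, hK.conn, ?_⟩, hs⟩
      intro u hu v huv
      rcases hK.closed u hu v huv with h | h
      · exact Or.inl h
      · exact Or.inr (Finset.mem_union_left _ h)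
    · refine ⟨⟨hK.ne, hd hs, hK.conn, ?_⟩, hs⟩
      intro u hu v huv
      rcases hK.closed u hu v huv with h | h
      · exact Or.inl h
      · exact Or.inr (Finset.mem_union_right _ h)
  have h3 := Finset.card_le_card h1
  have h4 := Finset.card_le_card h2
  have h5 := Finset.card_union_add_card_inter (smallF G A) (smallF G B)
  have h6 := Finset.card_union_add_card_inter A B
  unfold w
  omega

lemma w_ge (hU : U G k) (A : Finset V) : ((bigF G A).card : ℤ) - 1 ≤ w G k A := by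
  have h1 := hU.le A
  have h2 := card_small_add_big (G := G) A
  unfold w
  omega

lemma w_eq (hU : U G k) {A : Finset V} (hA : Tight G A) :
    w G k A = ((bigF G A).card : ℤ) - 1 := by
  have h1 := hU A hA
  have h2 := card_small_add_big (G := G) A
  unfold w
  omega

lemma w_nonneg (hU : U G k) {A : Finset V} {v : V} (hv : v ∉ A) (hs : ¬ Simplicial G v) :
    0 ≤ w G k A := by
  obtain ⟨K, hK, hvK⟩ := exists_comp G A hv
  have h1 : 0 < (bigF G A).card := Finset.card_pos.2 ⟨K, mem_bigF.2 ⟨hK, v, hvK, hs⟩⟩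
  have h2 := w_ge hU A
  omega

lemma w_union_nonpos (hU : U G k) {A B : Finset V} (hA : NS G A) (hB : NS G B)
    (h1 : w G k A ≤ 0) (h2 : w G k B ≤ 0) {v : V} (hv : v ∉ A) (hs : ¬ Simplicial G v) :
    w G k (A ∪ B) ≤ 0 := by
  have h3 := w_submod (k := k) hA hB
  have h4 : 0 ≤ w G k (A ∩ B) :=
    w_nonneg hU (v := v) (fun h => hv (Finset.mem_inter.1 h).1) hs
  omega

/-! ### Neighbourhoods -/

noncomputable def nb (G : SimpleGraph V) (A : Finset V) : Finset V :=
  univ.filter (fun v => v ∉ A ∧ ∃ a ∈ A, G.Adj v a)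

lemma mem_nb {A : Finset V} {v : V} : v ∈ nb G A ↔ v ∉ A ∧ ∃ a ∈ A, G.Adj v a := by
  simp [nb]

lemma mem_nb_singleton {a v : V} : v ∈ nb G {a} ↔ G.Adj v a := by
  rw [mem_nb]
  constructor
  · rintro ⟨-, b, hb, hadj⟩
    rw [Finset.mem_singleton] at hb
    rwa [hb] at hadj
  · intro h
    refine ⟨?_, a, Finset.mem_singleton_self a, h⟩
    rw [Finset.mem_singleton]
    exact h.ne

lemma isComp_nb {A : Finset V} (hne : A.Nonempty) (hcc : CC G A) : IsComp G (nb G A) A := by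
  refine ⟨hne, ?_, hcc, ?_⟩
  · intro u hu hu'
    exact (mem_nb.1 hu').1 hu
  · intro u hu v huv
    by_cases hv : v ∈ A
    · exact Or.inl hv
    · exact Or.inr (mem_nb.2 ⟨hv, u, hu, huv.symm⟩)

lemma cc_singleton (a : V) : CC G {a} := by
  intro u hu v hv
  rw [Finset.mem_singleton] at hu hv
  subst hu; subst hv
  exact Relation.ReflTransGen.refl

/-! ### Lemma Z -/

lemma lemmaZ_aux {A C : Finset V} (hC : IsComp G (nb G A) C) (d : ∀ v ∈ C, v ∉ A) :
    nb G C ⊆ nb G A ∧ IsComp G (nb G C) C ∧ Tight G (nb G C) := by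
  have hsub : nb G C ⊆ nb G A := by
    intro v hv
    obtain ⟨hvC, c, hc, hadj⟩ := mem_nb.1 hv
    rcases hC.closed c hc v hadj.symm with h | h
    · exact absurd h hvC
    · exact h
  have hcomp : IsComp G (nb G C) C := isComp_nb hC.ne hC.conn
  refine ⟨hsub, hcomp, ?_⟩
  intro v hv
  obtain ⟨hvC, c, hc, hadj⟩ := mem_nb.1 hv
  obtain ⟨hvA, a, ha, hadj'⟩ := mem_nb.1 (hsub hv)
  have haP : a ∉ nb G C := fun h => (mem_nb.1 (hsub h)).1 ha
  obtain ⟨D, hD, haD⟩ := exists_comp G (nb G C) haP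
  refine ⟨C, D, hcomp, hD, ?_, ⟨c, hc, hadj⟩, ⟨a, haD, hadj'⟩⟩
  rintro rfl
  exact d a haD ha

lemma lemmaZ (hg : Good G k z) {A₁ A₂ C₁ C₂ : Finset V} {a : V}
    (hC₁ : IsComp G (nb G A₁) C₁) (hC₂ : IsComp G (nb G A₂) C₂)
    (h21 : A₂ ⊆ C₁) (h12 : A₁ ⊆ C₂)
    (d₁ : ∀ v ∈ C₁, v ∉ A₁) (d₂ : ∀ v ∈ C₂, v ∉ A₂)
    (ha₁ : a ∈ C₁) (ha₂ : a ∈ C₂) (hns : ¬ Simplicial G a)
    (hz : ∀ i, z i ∈ C₁ ∨ z i ∈ C₂ ∨ (z i ∈ nb G A₁ ∧ z i ∈ nb G A₂))
    (hz' : ∀ i j, z i ∈ nb G A₁ → z i ∈ nb G A₂ → z j ∈ nb G A₁ → z j ∈ nb G A₂ → i = j) :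
    w G k (nb G A₁ ∩ nb G A₂) ≤ 0 := by
  obtain ⟨s1, c1, t1⟩ := lemmaZ_aux hC₁ d₁
  obtain ⟨s2, c2, t2⟩ := lemmaZ_aux hC₂ d₂
  have hint : nb G C₁ ∩ nb G C₂ = nb G A₁ ∩ nb G A₂ := by
    ext v
    rw [Finset.mem_inter, Finset.mem_inter]
    constructor
    · rintro ⟨h1, h2⟩
      exact ⟨s1 h1, s2 h2⟩
    · rintro ⟨h1, h2⟩
      refine ⟨?_, ?_⟩
      · obtain ⟨-, b, hb, hadj⟩ := mem_nb.1 h2
        exact mem_nb.2 ⟨fun h => hC₁.disj v h h1, b, h21 hb, hadj⟩
      · obtain ⟨-, b, hb, hadj⟩ := mem_nb.1 h1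
        exact mem_nb.2 ⟨fun h => hC₂.disj v h h2, b, h12 hb, hadj⟩
  have ns1 : NS G (nb G C₁) := fun v hv => t1.not_simplicial hv
  have ns2 : NS G (nb G C₂) := fun v hv => t2.not_simplicial hv
  -- components which survive
  have surv : ∀ (A A' C C' : Finset V), IsComp G (nb G C) C → A' ⊆ C → nb G C' ⊆ nb G A' →
      ∀ D, IsComp G (nb G C) D → D ≠ C → IsComp G (nb G C ∪ nb G C') D := by
    intro A A' C C' hC hA' hs D hD hne
    refine ⟨hD.ne, ?_, hD.conn, ?_⟩
    · intro v hv hv'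
      rcases Finset.mem_union.1 hv' with h | h
      · exact hD.disj v hv h
      · obtain ⟨-, b, hb, hadj⟩ := mem_nb.1 (hs h)
        rcases hD.closed v hv b hadj with h1 | h1
        · exact hne (hD.eq_of_mem hC h1 (hA' hb))
        · exact hC.disj b (hA' hb) h1
    · intro u hu v huv
      rcases hD.closed u hu v huv with h | h
      · exact Or.inl h
      · exact Or.inr (Finset.mem_union_left _ h)
  have haP : a ∉ nb G C₁ ∪ nb G C₂ := by
    rw [Finset.mem_union, not_or]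
    exact ⟨c1.disj a ha₁, c2.disj a ha₂⟩
  obtain ⟨E, hE, haE⟩ := exists_comp G (nb G C₁ ∪ nb G C₂) haP
  set X₁ := (bigF G (nb G C₁)).erase C₁ with hX₁
  set X₂ := (bigF G (nb G C₂)).erase C₂ with hX₂
  have hdisj : Disjoint X₁ X₂ := by
    rw [Finset.disjoint_left]
    intro D hD1 hD2
    rw [hX₁, Finset.mem_erase, mem_bigF] at hD1
    rw [hX₂, Finset.mem_erase, mem_bigF] at hD2
    obtain ⟨hne1, hD1, v, hvD, hvs⟩ := hD1
    obtain ⟨hne2, hD2, -⟩ := hD2
    have hzD : ∀ i, z i ∉ D := by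
      intro i hi
      rcases hz i with h | h | ⟨h, h'⟩
      · exact hne1 (hD1.eq_of_mem c1 hi h)
      · exact hne2 (hD2.eq_of_mem c2 hi h)
      · have : z i ∈ nb G C₁ ∩ nb G C₂ := by
          rw [hint]; exact Finset.mem_inter.2 ⟨h, h'⟩
        exact hD1.disj _ hi (Finset.mem_inter.1 this).1
    have hv : ∀ i, v ≠ z i := by
      rintro i rfl
      exact hzD i hvD
    obtain ⟨i, j, hi, hj, hij, -⟩ := hg.nonclique hvs hv
    have key : ∀ i, G.Adj v (z i) → z i ∈ nb G A₁ ∧ z i ∈ nb G A₂ := by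
      intro i hi
      rcases hD1.closed v hvD _ hi with h1 | h1
      · exact absurd h1 (hzD i)
      rcases hD2.closed v hvD _ hi with h2 | h2
      · exact absurd h2 (hzD i)
      exact ⟨s1 h1, s2 h2⟩
    exact hij (hz' i j (key i hi).1 (key i hi).2 (key j hj).1 (key j hj).2)
  have hsub : insert E (X₁ ∪ X₂) ⊆ bigF G (nb G C₁ ∪ nb G C₂) := by
    intro D hD
    rw [Finset.mem_insert, Finset.mem_union] at hD
    rcases hD with rfl | hD | hD
    · exact mem_bigF.2 ⟨hE, a, haE, hns⟩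
    · rw [hX₁, Finset.mem_erase, mem_bigF] at hD
      exact mem_bigF.2 ⟨surv A₁ A₂ C₁ C₂ c1 h21 s2 D hD.2.1 hD.1, hD.2.2⟩
    · rw [hX₂, Finset.mem_erase, mem_bigF] at hD
      have := surv A₂ A₁ C₂ C₁ c2 h12 s1 D hD.2.1 hD.1
      rw [Finset.union_comm] at this
      exact mem_bigF.2 ⟨this, hD.2.2⟩
  have hE' : E ∉ X₁ ∪ X₂ := by
    rw [Finset.mem_union]
    rintro (h | h)
    · rw [hX₁, Finset.mem_erase, mem_bigF] at h
      exact h.1 (h.2.1.eq_of_mem c1 haE ha₁)
    · rw [hX₂, Finset.mem_erase, mem_bigF] at h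
      exact h.1 (h.2.1.eq_of_mem c2 haE ha₂)
  have hcard := Finset.card_le_card hsub
  rw [Finset.card_insert_of_notMem hE', Finset.card_union_of_disjoint hdisj] at hcard
  have e1 : (bigF G (nb G C₁)).card - 1 ≤ X₁.card := Finset.pred_card_le_card_erase
  have e2 : (bigF G (nb G C₂)).card - 1 ≤ X₂.card := Finset.pred_card_le_card_erase
  have w1 := w_eq hg.u t1
  have w2 := w_eq hg.u t2
  have w3 := w_ge hg.u (nb G C₁ ∪ nb G C₂)
  have w4 := w_submod (k := k) ns1 ns2
  rw [hint] at w4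
  omega

/-! ### The zero sets -/

lemma zeroSet (hg : Good G k z) {A : Finset V} (hcc : CC G A) (h1A : z 1 ∈ A)
    (hA : ∀ a ∈ A, ¬ G.Adj a (z 3) ∧ ¬ G.Adj a (z 4) ∧ ¬ G.Adj a (z 5)) :
    w G k (nb G A ∩ nb G {z 3}) ≤ 0 := by
  have z3A : z 3 ∉ A := fun h => (hA _ h).2.1 (hg.adj 3 4 (by decide))
  have z4A : z 4 ∉ A := fun h => (hA _ h).1 (hg.adj 4 3 (by decide))
  have z5A : z 5 ∉ A := fun h => (hA _ h).2.1 (hg.adj 5 4 (by decide))
  have z0A : z 0 ∉ A := fun h => (hA _ h).2.2 (hg.adj 0 5 (by decide))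
  have z2A : z 2 ∉ A := fun h => (hA _ h).1 (hg.adj 2 3 (by decide))
  have z3n : z 3 ∉ nb G A := by
    intro h
    obtain ⟨-, a, ha, hadj⟩ := mem_nb.1 h
    exact (hA a ha).1 hadj.symm
  have z4n : z 4 ∉ nb G A := by
    intro h
    obtain ⟨-, a, ha, hadj⟩ := mem_nb.1 h
    exact (hA a ha).2.1 hadj.symm
  have z5n : z 5 ∉ nb G A := by
    intro h
    obtain ⟨-, a, ha, hadj⟩ := mem_nb.1 h
    exact (hA a ha).2.2 hadj.symm
  obtain ⟨C₁, hC₁, z3C⟩ := exists_comp G (nb G A) z3n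
  have z4C : z 4 ∈ C₁ := (hC₁.closed _ z3C _ (hg.adj 3 4 (by decide))).resolve_right z4n
  have z5C : z 5 ∈ C₁ := (hC₁.closed _ z4C _ (hg.adj 4 5 (by decide))).resolve_right z5n
  have z1n : z 1 ∉ nb G {z 3} := by
    rw [mem_nb_singleton]; exact hg.nadj _ _ (by decide)
  obtain ⟨C₂, hC₂, z1C⟩ := exists_comp G (nb G {z 3}) z1n
  have z0n : z 0 ∉ nb G {z 3} := by
    rw [mem_nb_singleton]; exact hg.nadj _ _ (by decide)
  have z5n' : z 5 ∉ nb G {z 3} := by
    rw [mem_nb_singleton]; exact hg.nadj _ _ (by decide)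
  have z0C : z 0 ∈ C₂ := (hC₂.closed _ z1C _ (hg.adj 1 0 (by decide))).resolve_right z0n
  have z5C' : z 5 ∈ C₂ := (hC₂.closed _ z0C _ (hg.adj 0 5 (by decide))).resolve_right z5n'
  have hA2 : A ⊆ C₂ := by
    refine hC₂.subset_of_cc hcc ?_ h1A z1C
    intro a ha h
    exact (hA a ha).1 (mem_nb_singleton.1 h)
  have hAc : IsComp G (nb G A) A := isComp_nb ⟨_, h1A⟩ hcc
  have z3c : IsComp G (nb G {z 3}) {z 3} := isComp_nb ⟨_, Finset.mem_singleton_self _⟩
    (cc_singleton _)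
  refine lemmaZ hg hC₁ hC₂ (Finset.singleton_subset_iff.2 z3C) hA2 ?_ ?_ z5C z5C' (hg.ns 5) ?_ ?_
  · intro v hv hvA
    exact z3A ((hC₁.eq_of_mem hAc hv hvA) ▸ z3C)
  · intro v hv hv3
    have h := hC₂.eq_of_mem z3c hv hv3
    rw [h, Finset.mem_singleton] at z1C
    exact absurd (hg.inj z1C) (by decide)
  · intro i
    have hz2 : z 2 ∈ nb G A ∧ z 2 ∈ nb G {z 3} :=
      ⟨mem_nb.2 ⟨z2A, _, h1A, hg.adj 2 1 (by decide)⟩,
        mem_nb_singleton.2 (hg.adj 2 3 (by decide))⟩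
    fin_cases i
    · exact Or.inr (Or.inl z0C)
    · exact Or.inr (Or.inl z1C)
    · exact Or.inr (Or.inr hz2)
    · exact Or.inl z3C
    · exact Or.inl z4C
    · exact Or.inl z5C
  · have key : ∀ i, z i ∈ nb G A → z i ∈ nb G {z 3} → i = 2 := by
      intro i h1 h2
      rw [mem_nb_singleton, hg.hex] at h2
      have h3 : i = 2 ∨ i = 4 :=
        (by decide : ∀ i : Fin 6, (3 = i + 1 ∨ i = 3 + 1) → i = 2 ∨ i = 4) i h2
      rcases h3 with h3 | h3
      · exact h3
      · subst h3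
        exact absurd h1 z4n
    intro i j h1 h2 h3 h4
    rw [key i h1 h2, key j h3 h4]

/-- rotation by `c` -/
lemma Good.rot (h : Good G k z) (c : Fin 6) : Good G k (fun i => z (i + c)) :=
  h.comp (Equiv.addRight c) (by
    intro i j
    show (j + c = i + c + 1 ∨ i + c = j + c + 1) ↔ _
    revert i j c; decide)

/-- reflection -/
lemma Good.refl (h : Good G k z) (c : Fin 6) : Good G k (fun i => z (c - i)) :=
  h.comp (Equiv.subLeft c) (by
    intro i j
    show (c - j = c - i + 1 ∨ c - i = c - j + 1) ↔ _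
    revert i j c; decide)

lemma core (hg : Good G k z) : ∃ S O : Finset V, 1 ≤ w G k S ∧ w G k O ≤ 0 ∧ O ⊆ S ∧ NS G S ∧
    z 1 ∉ S ∧
    (∀ v ∈ S, v ∈ O ∨ (G.Adj v (z 1) ∧ G.Adj v (z 4) ∧ ¬ G.Adj v (z 0) ∧ ¬ G.Adj v (z 2) ∧
      ¬ G.Adj v (z 3) ∧ ¬ G.Adj v (z 5))) ∧
    (∀ v, G.Adj v (z 1) → G.Adj v (z 4) → v ∈ S) := by
  set TA : Finset V := univ.filter (fun v => G.Adj v (z 3) ∨ G.Adj v (z 4) ∨ G.Adj v (z 5)) with hTA
  have memTA : ∀ v, v ∈ TA ↔ (G.Adj v (z 3) ∨ G.Adj v (z 4) ∨ G.Adj v (z 5)) := by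
    intro v; simp [hTA]
  have z1TA : z 1 ∉ TA := by
    rw [memTA]
    rintro (h | h | h)
    · exact hg.nadj 1 3 (by decide) h
    · exact hg.nadj 1 4 (by decide) h
    · exact hg.nadj 1 5 (by decide) h
  obtain ⟨A, hA, z1A⟩ := exists_comp G TA z1TA
  have fA : ∀ a ∈ A, ¬ G.Adj a (z 3) ∧ ¬ G.Adj a (z 4) ∧ ¬ G.Adj a (z 5) := by
    intro a ha
    have := hA.disj a ha
    rw [memTA, not_or, not_or] at this
    exact this
  have z3A : z 3 ∉ A := fun h => (fA _ h).2.1 (hg.adj 3 4 (by decide))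
  have z4A : z 4 ∉ A := fun h => (fA _ h).1 (hg.adj 4 3 (by decide))
  have z5A : z 5 ∉ A := fun h => (fA _ h).2.1 (hg.adj 5 4 (by decide))
  have z0A : z 0 ∉ A := fun h => (fA _ h).2.2 (hg.adj 0 5 (by decide))
  have z2A : z 2 ∉ A := fun h => (fA _ h).1 (hg.adj 2 3 (by decide))
  have nbA : ∀ v ∈ nb G A, v ∈ TA := by
    intro v hv
    obtain ⟨hvA, a, ha, hadj⟩ := mem_nb.1 hv
    exact (hA.closed a ha v hadj.symm).resolve_left hvA
  set TB : Finset V := univ.filter (fun v => G.Adj v (z 0) ∨ G.Adj v (z 1) ∨ G.Adj v (z 2))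
    ∪ (nb G A ∪ A) with hTB
  have memTB : ∀ v, v ∈ TB ↔ ((G.Adj v (z 0) ∨ G.Adj v (z 1) ∨ G.Adj v (z 2)) ∨
      (v ∈ nb G A ∨ v ∈ A)) := by
    intro v; simp [hTB]
  have z4nA : z 4 ∉ nb G A := by
    intro h
    obtain ⟨-, a, ha, hadj⟩ := mem_nb.1 h
    exact (fA a ha).2.1 hadj.symm
  have z4TB : z 4 ∉ TB := by
    rw [memTB]
    rintro ((h | h | h) | (h | h))
    · exact hg.nadj 4 0 (by decide) h
    · exact hg.nadj 4 1 (by decide) h
    · exact hg.nadj 4 2 (by decide) h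
    · exact z4nA h
    · exact z4A h
  obtain ⟨B, hB, z4B⟩ := exists_comp G TB z4TB
  have fB : ∀ b ∈ B, ¬ G.Adj b (z 0) ∧ ¬ G.Adj b (z 1) ∧ ¬ G.Adj b (z 2) ∧ b ∉ nb G A ∧ b ∉ A := by
    intro b hb
    have := hB.disj b hb
    rw [memTB] at this
    tauto
  have z0B : z 0 ∉ B := fun h => (fB _ h).2.1 (hg.adj 0 1 (by decide))
  have z1B : z 1 ∉ B := fun h => (fB _ h).1 (hg.adj 1 0 (by decide))
  have z2B : z 2 ∉ B := fun h => (fB _ h).2.1 (hg.adj 2 1 (by decide))
  have z3B : z 3 ∉ B := fun h => (fB _ h).2.2.1 (hg.adj 3 2 (by decide))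
  have z5B : z 5 ∉ B := fun h => (fB _ h).1 (hg.adj 5 0 (by decide))
  -- no edges between A and B
  have hAB : ∀ a ∈ A, ∀ b ∈ B, ¬ G.Adj a b := by
    intro a ha b hb hadj
    exact (fB b hb).2.2.2.1 (mem_nb.2 ⟨(fB b hb).2.2.2.2, a, ha, hadj.symm⟩)
  have nbB : ∀ v ∈ nb G B, G.Adj v (z 0) ∨ G.Adj v (z 2) ∨ v ∈ nb G A := by
    intro v hv
    obtain ⟨hvB, b, hb, hadj⟩ := mem_nb.1 hv
    have hvA : v ∉ A := fun h => hAB v h b hb hadj
    have hvT := (hB.closed b hb v hadj.symm).resolve_left hvB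
    rw [memTB] at hvT
    rcases hvT with (h | h | h) | (h | h)
    · exact Or.inl h
    · exact Or.inr (Or.inr (mem_nb.2 ⟨hvA, _, z1A, h⟩))
    · exact Or.inr (Or.inl h)
    · exact Or.inr (Or.inr h)
    · exact absurd h hvA
  have nsA : NS G (nb G A) := by
    intro v hv hs
    have hvT := nbA v hv
    obtain ⟨hvA, a, ha, hadj⟩ := mem_nb.1 hv
    rw [memTA] at hvT
    rcases hvT with h | h | h
    · exact (fA a ha).1 (hs a _ hadj h (by rintro rfl; exact z3A ha))
    · exact (fA a ha).2.1 (hs a _ hadj h (by rintro rfl; exact z4A ha))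
    · exact (fA a ha).2.2 (hs a _ hadj h (by rintro rfl; exact z5A ha))
  have nsB : NS G (nb G B) := by
    intro v hv hs
    obtain ⟨hvB, b, hb, hadj⟩ := mem_nb.1 hv
    rcases nbB v hv with h | h | h
    · exact (fB b hb).1 (hs b _ hadj h (by rintro rfl; exact z0B hb))
    · exact (fB b hb).2.2.1 (hs b _ hadj h (by rintro rfl; exact z2B hb))
    · exact nsA v h hs
  have nsS : NS G (nb G A ∪ nb G B) := by
    intro v hv
    rcases Finset.mem_union.1 hv with h | h
    · exact nsA v h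
    · exact nsB v h
  have nsI : ∀ X Y : Finset V, NS G X → NS G (X ∩ Y) := by
    intro X Y hX v hv
    exact hX v (Finset.mem_inter.1 hv).1
  -- components A and B of G - S
  have cA : IsComp G (nb G A ∪ nb G B) A := by
    refine ⟨⟨_, z1A⟩, ?_, hA.conn, ?_⟩
    · intro a ha h
      rcases Finset.mem_union.1 h with h | h
      · exact (mem_nb.1 h).1 ha
      · obtain ⟨-, b, hb, hadj⟩ := mem_nb.1 h
        exact hAB a ha b hb hadj
    · intro u hu v huv
      by_cases hv : v ∈ A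
      · exact Or.inl hv
      · exact Or.inr (Finset.mem_union_left _ (mem_nb.2 ⟨hv, u, hu, huv.symm⟩))
  have cB : IsComp G (nb G A ∪ nb G B) B := by
    refine ⟨⟨_, z4B⟩, ?_, hB.conn, ?_⟩
    · intro b hb h
      rcases Finset.mem_union.1 h with h | h
      · exact (fB b hb).2.2.2.1 h
      · exact (mem_nb.1 h).1 hb
    · intro u hu v huv
      by_cases hv : v ∈ B
      · exact Or.inl hv
      · exact Or.inr (Finset.mem_union_right _ (mem_nb.2 ⟨hv, u, hu, huv.symm⟩))
  have hneAB : A ≠ B := by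
    rintro h
    exact z1B (h ▸ z1A)
  have hbig : 2 ≤ (bigF G (nb G A ∪ nb G B)).card := by
    have hsub : ({A, B} : Finset (Finset V)) ⊆ bigF G (nb G A ∪ nb G B) := by
      intro D hD
      rw [Finset.mem_insert, Finset.mem_singleton] at hD
      rcases hD with rfl | rfl
      · exact mem_bigF.2 ⟨cA, _, z1A, hg.ns 1⟩
      · exact mem_bigF.2 ⟨cB, _, z4B, hg.ns 4⟩
    have := Finset.card_le_card hsub
    rwa [Finset.card_pair hneAB] at this
  have hwS : 1 ≤ w G k (nb G A ∪ nb G B) := by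
    have := w_ge hg.u (nb G A ∪ nb G B)
    omega
  -- the four zero sets
  have o1 : w G k (nb G A ∩ nb G {z 3}) ≤ 0 := zeroSet hg hA.conn z1A fA
  have o2 : w G k (nb G A ∩ nb G {z 5}) ≤ 0 := by
    have := zeroSet (z := fun i => z (2 - i)) (hg.refl 2) hA.conn z1A
      (fun a ha => ⟨(fA a ha).2.2, (fA a ha).2.1, (fA a ha).1⟩)
    exact this
  have o3 : w G k (nb G B ∩ nb G {z 0}) ≤ 0 := by
    have := zeroSet (z := fun i => z (i + 3)) (hg.rot 3) hB.conn z4B
      (fun b hb => ⟨(fB b hb).1, (fB b hb).2.1, (fB b hb).2.2.1⟩)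
    exact this
  have o4 : w G k (nb G B ∩ nb G {z 2}) ≤ 0 := by
    have := zeroSet (z := fun i => z (5 - i)) (hg.refl 5) hB.conn z4B
      (fun b hb => ⟨(fB b hb).2.2.1, (fB b hb).2.1, (fB b hb).1⟩)
    exact this
  have z1nA : z 1 ∉ nb G A := fun h => (mem_nb.1 h).1 z1A
  have z1nB : z 1 ∉ nb G B := by
    intro h
    obtain ⟨-, b, hb, hadj⟩ := mem_nb.1 h
    exact (fB b hb).2.1 hadj.symm
  set O12 := (nb G A ∩ nb G {z 3}) ∪ (nb G A ∩ nb G {z 5}) with hO12
  set O34 := (nb G B ∩ nb G {z 0}) ∪ (nb G B ∩ nb G {z 2}) with hO34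
  have n12 : NS G O12 := by
    intro v hv
    rcases Finset.mem_union.1 hv with h | h
    · exact nsA v (Finset.mem_inter.1 h).1
    · exact nsA v (Finset.mem_inter.1 h).1
  have n34 : NS G O34 := by
    intro v hv
    rcases Finset.mem_union.1 hv with h | h
    · exact nsB v (Finset.mem_inter.1 h).1
    · exact nsB v (Finset.mem_inter.1 h).1
  have w12 : w G k O12 ≤ 0 := w_union_nonpos hg.u (nsI _ _ nsA) (nsI _ _ nsA) o1 o2
    (v := z 1) (fun h => z1nA (Finset.mem_inter.1 h).1) (hg.ns 1)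
  have w34 : w G k O34 ≤ 0 := w_union_nonpos hg.u (nsI _ _ nsB) (nsI _ _ nsB) o3 o4
    (v := z 1) (fun h => z1nB (Finset.mem_inter.1 h).1) (hg.ns 1)
  have z1O12 : z 1 ∉ O12 := by
    intro h
    rcases Finset.mem_union.1 h with h | h
    · exact z1nA (Finset.mem_inter.1 h).1
    · exact z1nA (Finset.mem_inter.1 h).1
  have wO : w G k (O12 ∪ O34) ≤ 0 := w_union_nonpos hg.u n12 n34 w12 w34
    (v := z 1) z1O12 (hg.ns 1)
  refine ⟨nb G A ∪ nb G B, O12 ∪ O34, hwS, wO, ?_, nsS, ?_, ?_, ?_⟩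
  · intro v hv
    simp only [hO12, hO34, Finset.mem_union, Finset.mem_inter] at hv ⊢
    tauto
  · rw [Finset.mem_union, not_or]
    exact ⟨z1nA, z1nB⟩
  · -- classification
    have keyA : ∀ v ∈ nb G A, v ∈ O12 ∪ O34 ∨ (G.Adj v (z 1) ∧ G.Adj v (z 4) ∧ ¬ G.Adj v (z 0) ∧
        ¬ G.Adj v (z 2) ∧ ¬ G.Adj v (z 3) ∧ ¬ G.Adj v (z 5)) := by
      intro v hv
      by_cases h3 : G.Adj v (z 3)
      · left
        exact Finset.mem_union_left _ (Finset.mem_union_left _
          (Finset.mem_inter.2 ⟨hv, mem_nb_singleton.2 h3⟩))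
      by_cases h5 : G.Adj v (z 5)
      · left
        exact Finset.mem_union_left _ (Finset.mem_union_right _
          (Finset.mem_inter.2 ⟨hv, mem_nb_singleton.2 h5⟩))
      have h4 : G.Adj v (z 4) := by
        have := nbA v hv
        rw [memTA] at this
        tauto
      obtain ⟨hvA, a, ha, hva⟩ := mem_nb.1 hv
      have hvB : v ∉ B := fun h => hAB a ha v h hva.symm
      have hvnB : v ∈ nb G B := mem_nb.2 ⟨hvB, _, z4B, h4⟩
      by_cases h0 : G.Adj v (z 0)
      · left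
        exact Finset.mem_union_right _ (Finset.mem_union_left _
          (Finset.mem_inter.2 ⟨hvnB, mem_nb_singleton.2 h0⟩))
      by_cases h2 : G.Adj v (z 2)
      · left
        exact Finset.mem_union_right _ (Finset.mem_union_right _
          (Finset.mem_inter.2 ⟨hvnB, mem_nb_singleton.2 h2⟩))
      right
      have hvz : ∀ i, v ≠ z i := by
        intro i
        fin_cases i
        · rintro rfl; exact h5 (hg.adj 0 5 (by decide))
        · rintro rfl; exact hvA z1A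
        · rintro rfl; exact h3 (hg.adj 2 3 (by decide))
        · rintro rfl; exact h2 (hg.adj 3 2 (by decide))
        · rintro rfl; exact z4nA hv
        · rintro rfl; exact h0 (hg.adj 5 0 (by decide))
      obtain ⟨i, j, hi, hj, hij, hn⟩ := hg.nonclique (nsA v hv) hvz
      have key : ∀ i, G.Adj v (z i) → i = 1 ∨ i = 4 := by
        intro i hi
        fin_cases i
        · exact absurd hi h0
        · exact Or.inl rfl
        · exact absurd hi h2
        · exact absurd hi h3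
        · exact Or.inr rfl
        · exact absurd hi h5
      have h1 : G.Adj v (z 1) := by
        rcases key i hi with h | h
        · exact h ▸ hi
        · rcases key j hj with h' | h'
          · exact h' ▸ hj
          · exact absurd (h.trans h'.symm) hij
      exact ⟨h1, h4, h0, h2, h3, h5⟩
    intro v hv
    rcases Finset.mem_union.1 hv with h | h
    · exact keyA v h
    · rcases nbB v h with h' | h' | h'
      · left
        exact Finset.mem_union_right _ (Finset.mem_union_left _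
          (Finset.mem_inter.2 ⟨h, mem_nb_singleton.2 h'⟩))
      · left
        exact Finset.mem_union_right _ (Finset.mem_union_right _
          (Finset.mem_inter.2 ⟨h, mem_nb_singleton.2 h'⟩))
      · exact keyA v h'
  · intro v h1 h4
    refine Finset.mem_union_left _ (mem_nb.2 ⟨?_, _, z1A, h1⟩)
    intro hvA
    exact (fA v hvA).2.1 h4

theorem not_good (hg : Good G k z) : False := by
  -- a vertex adjacent to exactly z 0, z 3
  obtain ⟨S', O', hS', hO', hOS', -, -, hcl', -⟩ := core (z := fun i => z (i + 5)) (hg.rot 5)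
  have hex : ∃ m, G.Adj m (z 0) ∧ G.Adj m (z 3) ∧ ¬ G.Adj m (z 1) ∧ ¬ G.Adj m (z 4) := by
    by_contra hno
    have : S' = O' := by
      refine Finset.Subset.antisymm ?_ hOS'
      intro v hv
      rcases hcl' v hv with h | ⟨h1, h4, h0, h2, h3, h5⟩
      · exact h
      · exact absurd ⟨v, h1, h4, h2, h5⟩ hno
    rw [this] at hS'
    omega
  obtain ⟨m, m0, m3, m1, m4⟩ := hex
  obtain ⟨S, O, hS, hO, hOS, hns, z1S, hcl, hcon⟩ := core hg
  have mns : ¬ Simplicial G m := by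
    intro hs
    exact hg.nadj 0 3 (by decide) (hs _ _ m0 m3 (fun h => absurd (hg.inj h) (by decide)))
  have hX : w G k (nb G {z 1} ∩ nb G {z 4}) ≤ 0 := by
    have z4n : z 4 ∉ nb G {z 1} := by rw [mem_nb_singleton]; exact hg.nadj _ _ (by decide)
    have z3n : z 3 ∉ nb G {z 1} := by rw [mem_nb_singleton]; exact hg.nadj _ _ (by decide)
    have z5n : z 5 ∉ nb G {z 1} := by rw [mem_nb_singleton]; exact hg.nadj _ _ (by decide)
    have mn : m ∉ nb G {z 1} := by rw [mem_nb_singleton]; exact m1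
    have z1n : z 1 ∉ nb G {z 4} := by rw [mem_nb_singleton]; exact hg.nadj _ _ (by decide)
    have z0n : z 0 ∉ nb G {z 4} := by rw [mem_nb_singleton]; exact hg.nadj _ _ (by decide)
    have z2n : z 2 ∉ nb G {z 4} := by rw [mem_nb_singleton]; exact hg.nadj _ _ (by decide)
    have mn' : m ∉ nb G {z 4} := by rw [mem_nb_singleton]; exact m4
    obtain ⟨C₁, hC₁, z4C⟩ := exists_comp G (nb G {z 1}) z4n
    have z3C := (hC₁.closed _ z4C _ (hg.adj 4 3 (by decide))).resolve_right z3n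
    have z5C := (hC₁.closed _ z4C _ (hg.adj 4 5 (by decide))).resolve_right z5n
    have mC := (hC₁.closed _ z3C _ m3.symm).resolve_right mn
    obtain ⟨C₂, hC₂, z1C⟩ := exists_comp G (nb G {z 4}) z1n
    have z0C := (hC₂.closed _ z1C _ (hg.adj 1 0 (by decide))).resolve_right z0n
    have z2C := (hC₂.closed _ z1C _ (hg.adj 1 2 (by decide))).resolve_right z2n
    have mC' := (hC₂.closed _ z0C _ m0.symm).resolve_right mn'
    have c1 : IsComp G (nb G {z 1}) {z 1} := isComp_nb ⟨_, Finset.mem_singleton_self _⟩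
      (cc_singleton _)
    have c4 : IsComp G (nb G {z 4}) {z 4} := isComp_nb ⟨_, Finset.mem_singleton_self _⟩
      (cc_singleton _)
    refine lemmaZ hg hC₁ hC₂ (Finset.singleton_subset_iff.2 z4C)
      (Finset.singleton_subset_iff.2 z1C) ?_ ?_ mC mC' mns ?_ ?_
    · intro v hv hv1
      have h := hC₁.eq_of_mem c1 hv hv1
      rw [h, Finset.mem_singleton] at z4C
      exact absurd (hg.inj z4C) (by decide)
    · intro v hv hv1
      have h := hC₂.eq_of_mem c4 hv hv1
      rw [h, Finset.mem_singleton] at z1C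
      exact absurd (hg.inj z1C) (by decide)
    · intro i
      fin_cases i
      · exact Or.inr (Or.inl z0C)
      · exact Or.inr (Or.inl z1C)
      · exact Or.inr (Or.inl z2C)
      · exact Or.inl z3C
      · exact Or.inl z4C
      · exact Or.inl z5C
    · intro i j h1 h2 _ _
      rw [mem_nb_singleton, hg.hex] at h1 h2
      exact absurd ⟨h1, h2⟩
        ((by decide : ∀ i : Fin 6, ¬ ((1 = i + 1 ∨ i = 1 + 1) ∧ (4 = i + 1 ∨ i = 4 + 1))) i)
  have hXS : nb G {z 1} ∩ nb G {z 4} ⊆ S := by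
    intro v hv
    obtain ⟨h1, h4⟩ := Finset.mem_inter.1 hv
    exact hcon v (mem_nb_singleton.1 h1) (mem_nb_singleton.1 h4)
  have hSeq : S = O ∪ (nb G {z 1} ∩ nb G {z 4}) := by
    refine Finset.Subset.antisymm ?_ (Finset.union_subset hOS hXS)
    intro v hv
    rcases hcl v hv with h | ⟨h1, h4, -⟩
    · exact Finset.mem_union_left _ h
    · exact Finset.mem_union_right _
        (Finset.mem_inter.2 ⟨mem_nb_singleton.2 h1, mem_nb_singleton.2 h4⟩)
  have hfin : w G k (O ∪ (nb G {z 1} ∩ nb G {z 4})) ≤ 0 :=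
    w_union_nonpos hg.u (fun v hv => hns v (hOS hv)) (fun v hv => hns v (hXS hv)) hO hX
      (v := z 1) (fun h => z1S (hOS h)) (hg.ns 1)
  rw [← hSeq] at hfin
  omega

end Pool.Agent.Helper46.Access
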