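import Pool.Agent.Helper46.Access.Core

/-!
Reduction of long induced cycles to hexagons, edge-maximal choice, and the link with Mathlib's
connected components.
-/

set_option linter.unusedSectionVars false

namespace Pool.Agent.Helper46.Access

open Finset Classical

variable {V : Type*} [Fintype V]

/-- `f 0, …, f (m-1)` is an induced cycle. -/
def Cyc (G : SimpleGraph V) (m : ℕ) (f : ℕ → V) : Prop :=
  (∀ i < m, ∀ j < m, f i = f j → i = j) ∧
  ∀ i < m, ∀ j < m, (G.Adj (f i) (f j) ↔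
    (j = i + 1 ∨ i = j + 1 ∨ (i = 0 ∧ j + 1 = m) ∨ (j = 0 ∧ i + 1 = m)))

lemma Cyc.step {G : SimpleGraph V} {m : ℕ} {f : ℕ → V} (hm : 3 ≤ m) (h : Cyc G (m + 1) f) :
    Cyc (complete G (f m)) m f := by
  refine ⟨fun i hi j hj hij => h.1 i (by omega) j (by omega) hij, ?_⟩
  intro i hi j hj
  have h1 := h.2 i (by omega) j (by omega)
  have h2 := h.2 m (by omega) i (by omega)
  have h3 := h.2 m (by omega) j (by omega)
  have h4 : f i ≠ f j ↔ i ≠ j := by
    constructor
    · rintro hne rfl; exact hne rfl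
    · intro hne he; exact hne (h.1 i (by omega) j (by omega) he)
  show (G.Adj (f i) (f j) ∨ (f i ≠ f j ∧ G.Adj (f m) (f i) ∧ G.Adj (f m) (f j))) ↔ _
  rw [h1, h2, h3, h4]
  omega

lemma Cyc.to_six {k : ℕ} : ∀ (m : ℕ), 6 ≤ m → ∀ (G : SimpleGraph V) (f : ℕ → V), U G k →
    Cyc G m f → ∃ G' : SimpleGraph V, U G' k ∧ Cyc G' 6 f := by
  intro m hm
  induction m, hm using Nat.le_induction with
  | base => exact fun G f hU hc => ⟨G, hU, hc⟩
  | succ m hm ih =>
    intro G f hU hc
    exact ih (complete G (f m)) f (hU.complete _) (hc.step (by omega))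

theorem no_cyc {k m : ℕ} (hm : 6 ≤ m) {G : SimpleGraph V} {f : ℕ → V} (hU : U G k) :
    ¬ Cyc G m f := by
  intro hc
  obtain ⟨G', hU', hc'⟩ := Cyc.to_six m hm G f hU hc
  set z : Fin 6 → V := fun i => f i.val with hz
  have hinj : Function.Injective z := by
    intro i j hij
    exact Fin.ext (hc'.1 i.val i.isLt j.val j.isLt hij)
  have hhex : ∀ i j, G'.Adj (z i) (z j) ↔ (j = i + 1 ∨ i = j + 1) := by
    intro i j
    rw [hz]
    rw [hc'.2 i.val i.isLt j.val j.isLt]
    revert i j; decide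
  set S : Set (SimpleGraph V) :=
    {H | U H k ∧ ∀ i j, H.Adj (z i) (z j) ↔ (j = i + 1 ∨ i = j + 1)} with hS
  obtain ⟨H, -, hH⟩ := Set.Finite.exists_le_maximal (Set.toFinite S)
    (show G' ∈ S from ⟨hU', hhex⟩)
  obtain ⟨⟨hHU, hHhex⟩, hmax⟩ := hH
  refine not_good (G := H) (k := k) (z := z) ⟨hHU, hinj, hHhex, ?_⟩
  intro v hv hclique
  have hmem : complete H v ∈ S := by
    refine ⟨hHU.complete v, ?_⟩
    intro i j
    rw [← hHhex i j]
    constructor
    · rintro (h | ⟨hne, hi, hj⟩)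
      · exact h
      · exact hclique i j hi hj (fun h => hne (by rw [h]))
    · exact fun h => Or.inl h
  have hle := hmax hmem (le_complete H v)
  intro a b ha hb hab
  exact hle (Or.inr ⟨hab, ha, hb⟩)

lemma card_lt_of_two' {G : SimpleGraph V} {T T' : Finset V} {t : V}
    (hT' : ∀ x, x ∈ T' ↔ x ≠ t ∧ x ∈ T)
    {K₁ K₂ : Finset V} (h1 : IsComp G T K₁) (h2 : IsComp G T K₂) (hne : K₁ ≠ K₂)
    (ha1 : ∃ u ∈ K₁, G.Adj t u) (ha2 : ∃ u ∈ K₂, G.Adj t u) :
    (comps G T').card < (comps G T).card := by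
  have e : T' = T.erase t := by
    ext x
    rw [hT' x, Finset.mem_erase]
  rw [e]
  exact card_lt_of_two h1 h2 hne ha1 ha2

/-! ### Counting components -/

/-- the finite set of vertices of a component of `G.induce {v | v ∉ T}` -/
noncomputable def toSet (G : SimpleGraph V) (T : Finset V)
    (c : (G.induce {v | v ∉ T}).ConnectedComponent) : Finset V :=
  univ.filter (fun v => ∃ h : v ∉ T, (G.induce {v | v ∉ T}).connectedComponentMk ⟨v, h⟩ = c)

lemma mem_toSet {G : SimpleGraph V} {T : Finset V}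
    {c : (G.induce {v | v ∉ T}).ConnectedComponent} {v : V} :
    v ∈ toSet G T c ↔ ∃ h : v ∉ T, (G.induce {v | v ∉ T}).connectedComponentMk ⟨v, h⟩ = c := by
  simp [toSet]

lemma isComp_toSet {G : SimpleGraph V} {T : Finset V}
    (c : (G.induce {v | v ∉ T}).ConnectedComponent) : IsComp G T (toSet G T c) := by
  refine ⟨?_, ?_, ?_, ?_⟩
  · induction c using SimpleGraph.ConnectedComponent.ind with
    | _ v => exact ⟨v.1, mem_toSet.2 ⟨v.2, rfl⟩⟩
  · intro u hu
    exact (mem_toSet.1 hu).1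
  · intro u hu v hv
    obtain ⟨hu1, hu2⟩ := mem_toSet.1 hu
    obtain ⟨hv1, hv2⟩ := mem_toSet.1 hv
    have hr : (G.induce {v | v ∉ T}).Reachable ⟨u, hu1⟩ ⟨v, hv1⟩ :=
      SimpleGraph.ConnectedComponent.exact (hu2.trans hv2.symm)
    rw [SimpleGraph.reachable_iff_reflTransGen] at hr
    have key : ∀ y : {v | v ∉ T}, Relation.ReflTransGen (G.induce {v | v ∉ T}).Adj ⟨u, hu1⟩ y →
        Relation.ReflTransGen (fun a b => G.Adj a b ∧ b ∈ toSet G T c) u y.1 := by
      intro y hy
      induction hy with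
      | refl => exact Relation.ReflTransGen.refl
      | @tail a b hab hbc ih =>
        refine ih.tail ⟨hbc, mem_toSet.2 ⟨b.2, ?_⟩⟩
        rw [← hu2]
        apply SimpleGraph.ConnectedComponent.sound
        refine SimpleGraph.Reachable.symm ?_
        rw [SimpleGraph.reachable_iff_reflTransGen]
        exact hab.tail hbc
    exact key ⟨v, hv1⟩ hr
  · intro u hu v huv
    obtain ⟨hu1, hu2⟩ := mem_toSet.1 hu
    by_cases hv : v ∈ T
    · exact Or.inr hv
    · refine Or.inl (mem_toSet.2 ⟨hv, ?_⟩)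
      rw [← hu2]
      apply SimpleGraph.ConnectedComponent.sound
      exact SimpleGraph.Adj.reachable (show G.Adj v u from huv.symm)

lemma card_comps (G : SimpleGraph V) (T : Finset V) :
    Nat.card (G.induce {v | v ∉ T}).ConnectedComponent = (comps G T).card := by
  have : Nat.card (G.induce {v | v ∉ T}).ConnectedComponent = Nat.card (comps G T) := by
    refine Nat.card_eq_of_bijective
      (fun c => (⟨toSet G T c, mem_comps.2 (isComp_toSet c)⟩ : comps G T)) ⟨?_, ?_⟩
    · intro c c' h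
      have h' : toSet G T c = toSet G T c' := congrArg Subtype.val h
      obtain ⟨v, hv⟩ := (isComp_toSet (G := G) c).ne
      have hv' := hv
      rw [h'] at hv'
      obtain ⟨_, h1⟩ := mem_toSet.1 hv
      obtain ⟨_, h2⟩ := mem_toSet.1 hv'
      rw [← h1, ← h2]
    · rintro ⟨K, hK⟩
      have hK' := mem_comps.1 hK
      obtain ⟨v, hv⟩ := hK'.ne
      refine ⟨(G.induce {v | v ∉ T}).connectedComponentMk ⟨v, hK'.disj v hv⟩, ?_⟩
      apply Subtype.ext
      exact (isComp_toSet _).eq_of_mem hK' (mem_toSet.2 ⟨hK'.disj v hv, rfl⟩) hv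
  rw [this, Nat.card_eq_fintype_card, Fintype.card_coe]

lemma cyc_of_iso {G : SimpleGraph V} {S : Set V} {m : ℕ} (hm : 6 ≤ m)
    (e : G.induce S ≃g SimpleGraph.cycleGraph m) : ∃ f : ℕ → V, Cyc G m f := by
  obtain ⟨n, rfl⟩ : ∃ n, m = n + 2 := ⟨m - 2, by omega⟩
  refine ⟨fun i => if h : i < n + 2 then (e.symm ⟨i, h⟩).1 else (e.symm ⟨0, by omega⟩).1, ?_, ?_⟩
  · intro i hi j hj hij
    simp only [hi, hj, dif_pos] at hij
    have h1 := e.symm.injective (Subtype.ext hij)
    exact congrArg Fin.val h1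
  · intro i hi j hj
    simp only [hi, hj, dif_pos]
    have h1 : G.Adj (e.symm ⟨i, hi⟩).1 (e.symm ⟨j, hj⟩).1 ↔
        (G.induce S).Adj (e.symm ⟨i, hi⟩) (e.symm ⟨j, hj⟩) := Iff.rfl
    rw [h1, e.symm.map_adj_iff, SimpleGraph.cycleGraph_adj, sub_eq_iff_eq_add, sub_eq_iff_eq_add,
      add_comm 1, add_comm 1, Fin.ext_iff, Fin.ext_iff, Fin.val_add_one, Fin.val_add_one]
    simp only [Fin.ext_iff, Fin.val_last]
    constructor
    · rintro (h | h)
      · split_ifs at h with h' <;> omega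
      · split_ifs at h with h' <;> omega
    · intro h
      by_cases h1 : j = n + 1 <;> by_cases h2 : i = n + 1 <;> simp only [h1, h2, if_true, if_false] <;> omega

end Pool.Agent.Helper46.Access
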